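import Pool.Agent.Q61.ND.Stm

/-!
# Project ND: the last step, under the hypotheses `S_…`
-/

set_option autoImplicit false

open MeasureTheory Set Filter Topology Real

noncomputable section

namespace Pool.Agent.Q61.ND

open Pool.Agent.Q61.AD (P Q Per dt dx dy lap Tst D)

lemma measurableSet_Q : MeasurableSet Q := measurableSet_Ico.prod measurableSet_Ico

lemma Q_sub : Q ⊆ Icc (0 : ℝ) 1 ×ˢ Icc (0 : ℝ) 1 :=
  prod_mono Ico_subset_Icc_self Ico_subset_Icc_self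

lemma vol_Q : volume Q < ⊤ := by
  refine lt_of_le_of_lt (measure_mono Q_sub) ?_
  exact (isCompact_Icc.prod isCompact_Icc).measure_lt_top

lemma bdd_of_cont {g : P → ℝ} (hg : Continuous g) : ∃ C : ℝ, ∀ x ∈ Q, |g x| ≤ C := by
  obtain ⟨C, hC⟩ := (isCompact_Icc.prod isCompact_Icc).exists_bound_of_continuousOn
    (s := Icc (0 : ℝ) 1 ×ˢ Icc (0 : ℝ) 1) hg.continuousOn
  exact ⟨C, fun x hx => by simpa using hC x (Q_sub hx)⟩

lemma int_of_sq {f : P → ℝ} (hf : Measurable f) (h : IntegrableOn (fun x => f x ^ 2) Q) :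
    IntegrableOn f Q := by
  have h1 : IntegrableOn (fun _ : P => (1 : ℝ)) Q := integrableOn_const vol_Q.ne
  refine Integrable.mono' (h.add h1) hf.aestronglyMeasurable (Eventually.of_forall fun x => ?_)
  simp only [Pi.add_apply, Real.norm_eq_abs]
  nlinarith [sq_nonneg (|f x| - 1), sq_abs (f x), abs_nonneg (f x)]

lemma int_mul {f g : P → ℝ} (hf : Measurable f) (h : IntegrableOn (fun x => f x ^ 2) Q)
    (hg : Continuous g) : IntegrableOn (fun x => f x * g x) Q := by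
  obtain ⟨C, hC⟩ := bdd_of_cont hg
  refine Integrable.mono' ((int_of_sq hf h).norm.const_mul C)
    (hf.mul hg.measurable).aestronglyMeasurable ?_
  rw [ae_restrict_iff' measurableSet_Q]
  refine Eventually.of_forall fun x hx => ?_
  rw [norm_mul, mul_comm]
  exact mul_le_mul_of_nonneg_right (by simpa using hC x hx) (norm_nonneg _)

lemma cont_dx {ψ : P → ℝ} (h : ContDiff ℝ (⊤ : ℕ∞) ψ) : Continuous (dx ψ) := by
  have h1 : dx ψ = fun x => fderiv ℝ ψ x (1, 0) := by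
    funext x
    have h2 : HasFDerivAt ψ (fderiv ℝ ψ x) (x.1, x.2) :=
      (h.differentiable (by simp) x).hasFDerivAt
    have h3 : HasDerivAt (fun s : ℝ => (s, x.2)) ((1, 0) : ℝ × ℝ) x.1 :=
      (hasDerivAt_id _).prodMk (hasDerivAt_const _ _)
    exact (h2.comp_hasDerivAt (x.1) h3).deriv
  rw [h1]
  exact (h.continuous_fderiv (by simp)).clm_apply continuous_const

/-- The last step: the function is not parabolic. -/
lemma not_parabolic (h : S_nhb) {W w w₁ w₂ : P → ℝ} (hu : S_upm) (hW : Loc W)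
    (hT : Tor W w w₁ w₂) (T : ℝ) (hT0 : 0 < T) (G₁ G₂ : ℝ → P → ℝ)
    (h1 : Measurable (fun q : ℝ × P => G₁ q.1 q.2)) (h2 : Measurable (fun q : ℝ × P => G₂ q.1 q.2))
    (h3 : ∀ᵐ t ∂(volume.restrict (Ioo 0 T)), ∀ ψ, SP ψ →
      ∫ x in Q, exp t * (UP W x - w x) * dx ψ x = -∫ x in Q, G₁ t x * ψ x)
    (h4 : ∫⁻ t in Ioo 0 T, ∫⁻ x in Q, ENNReal.ofReal (G₁ t x ^ 2 + G₂ t x ^ 2) < ⊤) : False := by
  obtain ⟨hUm, -, hUi⟩ := hu W hW
  have hm : Measurable (fun q : ℝ × P => ENNReal.ofReal (G₁ q.1 q.2 ^ 2 + G₂ q.1 q.2 ^ 2)) :=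
    ((h1.pow_const 2).add (h2.pow_const 2)).ennreal_ofReal
  have h5 : ∀ᵐ t ∂(volume.restrict (Ioo 0 T)),
      ∫⁻ x in Q, ENNReal.ofReal (G₁ t x ^ 2 + G₂ t x ^ 2) < ⊤ := by
    refine ae_lt_top' ?_ h4.ne
    exact (Measurable.lintegral_prod_right' (ν := volume.restrict Q) hm).aemeasurable
  have hne : (ae (volume.restrict (Ioo 0 T))).NeBot := by
    rw [ae_neBot]
    intro h0
    have h6 := congrArg (fun μ => μ univ) h0
    simp only [Measure.restrict_apply_univ, Real.volume_Ioo, Measure.coe_zero, Pi.zero_apply,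
      sub_zero, ENNReal.ofReal_eq_zero] at h6
    linarith
  obtain ⟨t, ht3, ht5⟩ := (h3.and h5).exists
  have hg1 : Measurable (G₁ t) := h1.comp measurable_prodMk_left
  have hg2 : Measurable (G₂ t) := h2.comp measurable_prodMk_left
  have hi : IntegrableOn (fun x => G₁ t x ^ 2) Q := by
    refine ⟨(hg1.pow_const 2).aestronglyMeasurable, ?_⟩
    rw [hasFiniteIntegral_iff_enorm]
    refine lt_of_le_of_lt (lintegral_mono fun x => ?_) ht5
    rw [Real.enorm_eq_ofReal (sq_nonneg _)]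
    exact ENNReal.ofReal_le_ofReal (by nlinarith [sq_nonneg (G₂ t x)])
  have hwi : IntegrableOn (fun x => w₁ x ^ 2) Q := by
    refine Integrable.mono' hT.ig (hT.m1.pow_const 2).aestronglyMeasurable
      (Eventually.of_forall fun x => ?_)
    rw [Real.norm_eq_abs, abs_of_nonneg (sq_nonneg _)]
    nlinarith [sq_nonneg (w₂ x)]
  refine h W hW (fun x => exp (-t) * G₁ t x + w₁ x) (fun _ => 0)
    ((hg1.const_mul _).add hT.m1) measurable_const ?_ ?_
  · refine Integrable.mono' (((hi.const_mul (2 * exp (-t) ^ 2))).add (hwi.const_mul 2))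
      ((((hg1.const_mul _).add hT.m1).pow_const 2).add measurable_const).aestronglyMeasurable
      (Eventually.of_forall fun x => ?_)
    simp only [Pi.add_apply, Real.norm_eq_abs]
    rw [abs_of_nonneg (by positivity)]
    nlinarith [sq_nonneg (exp (-t) * G₁ t x - w₁ x)]
  · intro ψ hψ
    have hcd := cont_dx hψ.1
    have hcψ : Continuous ψ := hψ.1.continuous
    have e1 : ∫ x in Q, exp t * (UP W x - w x) * dx ψ x =
        exp t * (∫ x in Q, UP W x * dx ψ x) - exp t * ∫ x in Q, w x * dx ψ x := by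
      rw [← integral_const_mul, ← integral_const_mul, ← integral_sub
        ((int_mul hUm hUi hcd).const_mul _) ((int_mul hT.m hT.i hcd).const_mul _)]
      exact integral_congr_ae (Eventually.of_forall fun x => by ring)
    have e2 : ∫ x in Q, (exp (-t) * G₁ t x + w₁ x) * ψ x =
        exp (-t) * (∫ x in Q, G₁ t x * ψ x) + ∫ x in Q, w₁ x * ψ x := by
      rw [← integral_const_mul, ← integral_add
        ((int_mul hg1 hi hcψ).const_mul _) (int_mul hT.m1 hwi hcψ)]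
      exact integral_congr_ae (Eventually.of_forall fun x => by ring)
    have e3 := ht3 ψ hψ
    rw [e1, hT.gx ψ hψ] at e3
    have e4 : exp (-t) * exp t = 1 := by rw [← exp_add]; simp
    have e5 : exp (-t) * _ = exp (-t) * _ := congrArg (fun y => exp (-t) * y) e3
    rw [e2]
    linear_combination e5 - ((∫ x in Q, UP W x * dx ψ x) + ∫ x in Q, w₁ x * ψ x) * e4

/-- The last step: everything else. -/
theorem fin (h1 : S_loc) (h2 : S_tor) (h3 : S_upm) (h4 : S_bpa) (h5 : S_bpb) (h6 : S_tim)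
    (h7 : S_int) (h8 : S_nhb) : ∃ (b : P → P) (U : P → ℝ),
      (Measurable b ∧ Per b ∧ IntegrableOn (fun x => ‖b x‖ ^ 2) Q) ∧
      (∀ ψ : P → ℝ, ContDiff ℝ (⊤ : ℕ∞) ψ → Per ψ →
        ∫ x in Q, ((b x).1 * dx ψ x + (b x).2 * dy ψ x) = 0) ∧
      (Measurable U ∧ Per U ∧ IntegrableOn (fun x => U x ^ 2) Q) ∧
      (∀ ψ : P → ℝ, ContDiff ℝ (⊤ : ℕ∞) ψ → Per ψ →
        ∫ x in Q, U x * (ψ x - LL b ψ x) = 0) ∧
      ∀ T : ℝ, 0 < T →
        Integrable (fun q : ℝ × P => (exp q.1 * U q.2) • b q.2)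
          ((volume.restrict (Ioo 0 T)).prod (volume.restrict Q)) ∧
        (∀ Φ : ℝ → P → ℝ, Tst Φ → (∃ T' < T, ∀ t, T' ≤ t → ∀ x, Φ t x = 0) →
          (∫ t in (0 : ℝ)..T, ∫ x in Q, exp t * U x * D (fun _ => b) Φ t x) +
            ∫ x in Q, U x * Φ 0 x = 0) ∧
        ∀ G₁ G₂ : ℝ → P → ℝ, Measurable (fun q : ℝ × P => G₁ q.1 q.2) →
          Measurable (fun q : ℝ × P => G₂ q.1 q.2) →
          (∀ᵐ t ∂(volume.restrict (Ioo 0 T)), ∀ ψ : P → ℝ, ContDiff ℝ (⊤ : ℕ∞) ψ → Per ψ →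
            ∫ x in Q, exp t * U x * dx ψ x = -∫ x in Q, G₁ t x * ψ x) →
          ¬ ∫⁻ t in Ioo 0 T, ∫⁻ x in Q, ENNReal.ofReal (G₁ t x ^ 2 + G₂ t x ^ 2) < ⊤ := by
  obtain ⟨W, hW⟩ := h1
  obtain ⟨w, w₁, w₂, hT⟩ := h2 W hW
  obtain ⟨hUm, hUp, hUi⟩ := h3 W hW
  have hm : Measurable (fun x => UP W x - w x) := hUm.sub hT.m
  have hp : Per (fun x => UP W x - w x) := fun x y => by
    simp only [(hUp x y).1, (hUp x y).2, (hT.per x y).1, (hT.per x y).2, and_self]
  have hi : IntegrableOn (fun x => (UP W x - w x) ^ 2) Q := by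
    refine Integrable.mono' ((hUi.const_mul 2).add (hT.i.const_mul 2))
      (hm.pow_const 2).aestronglyMeasurable (Eventually.of_forall fun x => ?_)
    simp only [Pi.add_apply, Real.norm_eq_abs]
    rw [abs_of_nonneg (sq_nonneg _)]
    nlinarith [sq_nonneg (UP W x + w x)]
  have heq : ∀ ψ, SP ψ → ∫ x in Q, (UP W x - w x) * (ψ x - LL bP ψ x) = 0 := hT.eq
  refine ⟨bP, fun x => UP W x - w x, ⟨h4.1, h4.2.1, h4.2.2.1⟩, fun ψ a b => h5 ψ ⟨a, b⟩,
    ⟨hm, hp, hi⟩, fun ψ a b => heq ψ ⟨a, b⟩, fun T hT0 => ⟨?_, ?_, ?_⟩⟩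
  · exact h7 bP _ h4.1 h4.2.2.1 hm hi T
  · exact h6 bP _ h4.1 h4.2.1 h4.2.2.1 hm hp hi heq T hT0
  · intro G₁ G₂ m1 m2 m3 m4
    exact not_parabolic h8 h3 hW hT T hT0 G₁ G₂ m1 m2
      (m3.mono fun t ht ψ hψ => ht ψ hψ.1 hψ.2) m4

end Pool.Agent.Q61.ND
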