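import Pool.Agent.Q130.ND_WIR
import Pool.Agent.Q164.ND.Cir
import Pool.Agent.Q129.ND_SLI
import Pool.Agent.Q129.ND_ENE
import Pool.Agent.Q164.ND.Apr
import Pool.Agent.Q217.ND_IBP
import Pool.Agent.Q164.ND.Bnd
import Pool.Agent.Q94.ND_LBD
import Pool.Agent.Q214.ND.Dua
import Pool.Agent.Q277.ND_CHN
import Pool.Agent.Q277.ND_POL
import Pool.Agent.Q214.ND.Loc
import Pool.Agent.Q277.ND_SQI
import Pool.Agent.Q61.ND_EXT
import Pool.Agent.Q238.ND.Tra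
import Pool.Agent.Q129.ND_BPA
import Pool.Agent.Q91.ND_LIO
import Pool.Agent.Q277.ND_LAX
import Pool.Agent.Q110.ND.FUN
import Pool.Agent.Q238.ND.Tor
import Pool.Agent.Q184.ND_NHA
import Pool.Agent.Q217.ND_NHB
import Pool.Agent.Q121.ND_TIM
import Pool.Agent.Q110.ND.INT
import Pool.Agent.Q184.ND_BPB
import Pool.Agent.Q61.ND.Fin

/-!
# Project ND: assembly
-/

set_option autoImplicit false

open MeasureTheory Set Filter Topology Real

noncomputable section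

namespace Pool.Agent.Q61.ND

open Pool.Agent.Q61.AD (P Q Per dt dx dy lap Tst D)

theorem all : ∃ (b : P → P) (U : P → ℝ),
      (Measurable b ∧ Per b ∧ IntegrableOn (fun x => ‖b x‖ ^ 2) Q) ∧
      (∀ ψ : P → ℝ, ContDiff ℝ (⊤ : ℕ∞) ψ → Per ψ →
        ∫ x in Q, ((b x).1 * dx ψ x + (b x).2 * dy ψ x) = 0) ∧
      (Measurable U ∧ Per U ∧ IntegrableOn (fun x => U x ^ 2) Q) ∧
      (∀ ψ : P → ℝ, ContDiff ℝ (⊤ : ℕ∞) ψ → Per ψ →
        ∫ x in Q, U x * (ψ x - LL b ψ x) = 0) ∧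
      ∀ T : ℝ, 0 < T →
        Integrable (fun q : ℝ × P => (exp q.1 * U q.2) • b q.2)
          ((volume.restrict (Ioo 0 T)).prod (volume.restrict Q)) ∧
        (∀ Φ : ℝ → P → ℝ, Tst Φ → (∃ T' < T, ∀ t, T' ≤ t → ∀ x, Φ t x = 0) →
          (∫ t in (0 : ℝ)..T, ∫ x in Q, exp t * U x * D (fun _ => b) Φ t x) +
            ∫ x in Q, U x * Φ 0 x = 0) ∧
        ∀ G₁ G₂ : ℝ → P → ℝ, Measurable (fun q : ℝ × P => G₁ q.1 q.2) →
          Measurable (fun q : ℝ × P => G₂ q.1 q.2) →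
          (∀ᵐ t ∂(volume.restrict (Ioo 0 T)), ∀ ψ : P → ℝ, ContDiff ℝ (⊤ : ℕ∞) ψ → Per ψ →
            ∫ x in Q, exp t * U x * dx ψ x = -∫ x in Q, G₁ t x * ψ x) →
          ¬ ∫⁻ t in Ioo 0 T, ∫⁻ x in Q, ENNReal.ofReal (G₁ t x ^ 2 + G₂ t x ^ 2) < ⊤ := by
  have hpol : S_pol := Pool.Agent.Q277.ND.pol
  have hchn : S_chn := Pool.Agent.Q277.ND.Chn.chn
  have hsqi : S_sqi := Pool.Agent.Q277.ND.Sqi.sqi hpol
  have htra : S_tra := Pool.Agent.Q238.ND.tra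
  have hupm : S_upm := Pool.Agent.Q238.ND.upm htra hsqi
  have hbpa : S_bpa := Pool.Agent.Q129.ND.bpa hpol htra
  have hbpb : S_bpb := bpb hchn hpol htra hbpa
  have hcir : S_cir := Pool.Agent.Q164.ND.cir Pool.Agent.Q130.ND.wir
  have hene : S_ene := Pool.Agent.Q129.ND.ene Pool.Agent.Q129.ND.sli
  have hapr : S_apr := Pool.Agent.Q164.ND.apr hcir hene
  have hlbd : S_lbd := Pool.Agent.Q94.NDLBD.lbd hapr Pool.Agent.Q217.NDIBP.ibp Pool.Agent.Q164.ND.bnd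
  have hdua : S_dua := Pool.Agent.Q214.ND.dua hlbd
  have hloc : S_loc := Pool.Agent.Q214.ND.loc hdua hchn hpol
  have hext : S_ext := Pool.Agent.Q61.NDEXT.ext hpol hsqi
  have hlax : S_lax := Pool.Agent.Q277.ND.Lax.lax Pool.Agent.Q91.ND.lio
  have hfun : S_fun := Pool.Agent.Q110.ND.fun1 hext htra hsqi hupm hbpa
  have htor : S_tor := Pool.Agent.Q238.ND.tor hbpa hbpb hlax hupm hfun
  have hnha : S_nha := Pool.Agent.Q61.ND.nha hchn hpol
  have hnhb : S_nhb := Pool.Agent.Q217.NDNHB.nhb hnha htra hsqi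
  exact fin hloc htor hupm hbpa hbpb Pool.Agent.Q121.ND.tim Pool.Agent.Q110.ND.int1 hnhb

end Pool.Agent.Q61.ND
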