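import Pool.Agent.Q61.ND.Stm

/-!
# Project ND: calculus with `dx`, `dy`, `lap`
-/

set_option autoImplicit false

open MeasureTheory Set Filter Topology Real

noncomputable section

namespace Pool.Agent.Q61.ND.Calc

open Pool.Agent.Q61.AD (P Q Per dt dx dy lap Tst D)

variable {f g : P → ℝ}

/-- Smooth functions. -/
abbrev Sm (f : P → ℝ) : Prop := ContDiff ℝ (⊤ : ℕ∞) f

theorem hasDx (h : Differentiable ℝ f) (x : P) :
    HasDerivAt (fun s => f (s, x.2)) (fderiv ℝ f x (1, 0)) x.1 := by
  have h2 : HasFDerivAt f (fderiv ℝ f x) (x.1, x.2) := (h x).hasFDerivAt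
  have h3 : HasDerivAt (fun s : ℝ => (s, x.2)) ((1, 0) : ℝ × ℝ) x.1 :=
    (hasDerivAt_id _).prodMk (hasDerivAt_const _ _)
  exact h2.comp_hasDerivAt (x.1) h3

theorem hasDy (h : Differentiable ℝ f) (x : P) :
    HasDerivAt (fun s => f (x.1, s)) (fderiv ℝ f x (0, 1)) x.2 := by
  have h2 : HasFDerivAt f (fderiv ℝ f x) (x.1, x.2) := (h x).hasFDerivAt
  have h3 : HasDerivAt (fun s : ℝ => (x.1, s)) ((0, 1) : ℝ × ℝ) x.2 :=
    (hasDerivAt_const _ _).prodMk (hasDerivAt_id _)
  exact h2.comp_hasDerivAt (x.2) h3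

theorem dx_eq (h : Differentiable ℝ f) (x : P) : dx f x = fderiv ℝ f x (1, 0) := (hasDx h x).deriv

theorem dy_eq (h : Differentiable ℝ f) (x : P) : dy f x = fderiv ℝ f x (0, 1) := (hasDy h x).deriv

theorem diff (h : Sm f) : Differentiable ℝ f := h.differentiable (by simp)

theorem hdx (h : Sm f) (x : P) : HasDerivAt (fun s => f (s, x.2)) (dx f x) x.1 := by
  rw [dx_eq (diff h)]; exact hasDx (diff h) x

theorem hdy (h : Sm f) (x : P) : HasDerivAt (fun s => f (x.1, s)) (dy f x) x.2 := by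
  rw [dy_eq (diff h)]; exact hasDy (diff h) x

/-- `dx f` is smooth. -/
theorem sm_dx (h : Sm f) : Sm (dx f) := by
  have h1 : dx f = fun x => fderiv ℝ f x (1, 0) := funext (dx_eq (diff h))
  rw [h1]
  exact (h.fderiv_right (m := (⊤ : ℕ∞)) (by norm_cast)).clm_apply contDiff_const

/-- `dy f` is smooth. -/
theorem sm_dy (h : Sm f) : Sm (dy f) := by
  have h1 : dy f = fun x => fderiv ℝ f x (0, 1) := funext (dy_eq (diff h))
  rw [h1]
  exact (h.fderiv_right (m := (⊤ : ℕ∞)) (by norm_cast)).clm_apply contDiff_const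

/-- `lap f` is smooth. -/
theorem sm_lap (h : Sm f) : Sm (lap f) := (sm_dx (sm_dx h)).add (sm_dy (sm_dy h))

theorem fderiv_eq (h : Sm f) (x v : P) : fderiv ℝ f x v = v.1 * dx f x + v.2 * dy f x := by
  rw [dx_eq (diff h), dy_eq (diff h)]
  have h1 : v = v.1 • ((1, 0) : P) + v.2 • ((0, 1) : P) := by ext <;> simp
  conv_lhs => rw [h1]
  rw [map_add, map_smul, map_smul, smul_eq_mul, smul_eq_mul]

theorem dx_add (hf : Sm f) (hg : Sm g) (x : P) : dx (fun y => f y + g y) x = dx f x + dx g x :=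
  ((hdx hf x).add (hdx hg x)).deriv

theorem dy_add (hf : Sm f) (hg : Sm g) (x : P) : dy (fun y => f y + g y) x = dy f x + dy g x :=
  ((hdy hf x).add (hdy hg x)).deriv

theorem dx_mul (hf : Sm f) (hg : Sm g) (x : P) :
    dx (fun y => f y * g y) x = dx f x * g x + f x * dx g x :=
  ((hdx hf x).mul (hdx hg x)).deriv

theorem dy_mul (hf : Sm f) (hg : Sm g) (x : P) :
    dy (fun y => f y * g y) x = dy f x * g x + f x * dy g x :=
  ((hdy hf x).mul (hdy hg x)).deriv

theorem dx_cmul (hf : Sm f) (c : ℝ) (x : P) : dx (fun y => c * f y) x = c * dx f x :=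
  ((hdx hf x).const_mul c).deriv

theorem dy_cmul (hf : Sm f) (c : ℝ) (x : P) : dy (fun y => c * f y) x = c * dy f x :=
  ((hdy hf x).const_mul c).deriv

theorem lap_add (hf : Sm f) (hg : Sm g) (x : P) :
    lap (fun y => f y + g y) x = lap f x + lap g x := by
  have h1 : dx (fun y => f y + g y) = fun y => dx f y + dx g y := funext (dx_add hf hg)
  have h2 : dy (fun y => f y + g y) = fun y => dy f y + dy g y := funext (dy_add hf hg)
  rw [lap, lap, lap, h1, h2, dx_add (sm_dx hf) (sm_dx hg), dy_add (sm_dy hf) (sm_dy hg)]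
  ring

theorem lap_cmul (hf : Sm f) (c : ℝ) (x : P) : lap (fun y => c * f y) x = c * lap f x := by
  have h1 : dx (fun y => c * f y) = fun y => c * dx f y := funext (dx_cmul hf c)
  have h2 : dy (fun y => c * f y) = fun y => c * dy f y := funext (dy_cmul hf c)
  rw [lap, lap, h1, h2, dx_cmul (sm_dx hf), dy_cmul (sm_dy hf)]
  ring

theorem lap_mul (hf : Sm f) (hg : Sm g) (x : P) :
    lap (fun y => f y * g y) x =
      f x * lap g x + 2 * (dx f x * dx g x + dy f x * dy g x) + g x * lap f x := by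
  have h1 : dx (fun y => f y * g y) = fun y => dx f y * g y + f y * dx g y := funext (dx_mul hf hg)
  have h2 : dy (fun y => f y * g y) = fun y => dy f y * g y + f y * dy g y := funext (dy_mul hf hg)
  rw [lap, lap, lap, h1, h2, dx_add ((sm_dx hf).mul hg) (hf.mul (sm_dx hg)),
    dy_add ((sm_dy hf).mul hg) (hf.mul (sm_dy hg)), dx_mul (sm_dx hf) hg, dx_mul hf (sm_dx hg),
    dy_mul (sm_dy hf) hg, dy_mul hf (sm_dy hg)]
  ring

/-- Product rule for the whole operator. -/
theorem LL_mul (b : P → P) (hf : Sm f) (hg : Sm g) (x : P) :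
    LL b (fun y => f y * g y) x = f x * LL b g x + 2 * (dx f x * dx g x + dy f x * dy g x) +
      g x * lap f x + g x * ((b x).1 * dx f x + (b x).2 * dy f x) := by
  rw [LL, LL, lap_mul hf hg, dx_mul hf hg, dy_mul hf hg]
  ring

theorem LL_add (b : P → P) (hf : Sm f) (hg : Sm g) (x : P) :
    LL b (fun y => f y + g y) x = LL b f x + LL b g x := by
  rw [LL, LL, LL, lap_add hf hg, dx_add hf hg, dy_add hf hg]
  ring

theorem LL_cmul (b : P → P) (hf : Sm f) (c : ℝ) (x : P) :
    LL b (fun y => c * f y) x = c * LL b f x := by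
  rw [LL, LL, lap_cmul hf, dx_cmul hf, dy_cmul hf]
  ring

/-! Translations, reflection, dilations: no hypotheses are needed. -/

theorem dx_tr (f : P → ℝ) (c x : P) : dx (fun y => f (y + c)) x = dx f (x + c) := by
  simp only [dx, Prod.fst_add, Prod.snd_add]
  have := deriv_comp_add_const (fun s => f (s, x.2 + c.2)) c.1 x.1
  simpa [Prod.add_def] using this

theorem dy_tr (f : P → ℝ) (c x : P) : dy (fun y => f (y + c)) x = dy f (x + c) := by
  simp only [dy, Prod.fst_add, Prod.snd_add]
  have := deriv_comp_add_const (fun s => f (x.1 + c.1, s)) c.2 x.2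
  simpa [Prod.add_def] using this

theorem lap_tr (f : P → ℝ) (c x : P) : lap (fun y => f (y + c)) x = lap f (x + c) := by
  have h1 : dx (fun y => f (y + c)) = fun y => dx f (y + c) := funext (dx_tr f c)
  have h2 : dy (fun y => f (y + c)) = fun y => dy f (y + c) := funext (dy_tr f c)
  rw [lap, lap, h1, h2, dx_tr, dy_tr]

theorem dx_ng (f : P → ℝ) (x : P) : dx (fun y => f (-y)) x = -dx f (-x) := by
  have := deriv_comp_neg (fun s => f (s, -x.2)) x.1
  simpa [dx, Prod.neg_mk] using this

theorem dy_ng (f : P → ℝ) (x : P) : dy (fun y => f (-y)) x = -dy f (-x) := by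
  have := deriv_comp_neg (fun s => f (-x.1, s)) x.2
  simpa [dy, Prod.neg_mk] using this

theorem lap_ng (f : P → ℝ) (x : P) : lap (fun y => f (-y)) x = lap f (-x) := by
  have h1 : dx (fun y => f (-y)) = fun y => -dx f (-y) := funext (dx_ng f)
  have h2 : dy (fun y => f (-y)) = fun y => -dy f (-y) := funext (dy_ng f)
  have h3 : dx (fun y => -dx f (-y)) x = dx (dx f) (-x) := by
    have e : dx (fun y => -dx f (-y)) x = -dx (fun y => dx f (-y)) x := by
      simp only [dx]
      exact deriv.fun_neg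
    rw [e, dx_ng, neg_neg]
  have h4 : dy (fun y => -dy f (-y)) x = dy (dy f) (-x) := by
    have e : dy (fun y => -dy f (-y)) x = -dy (fun y => dy f (-y)) x := by
      simp only [dy]
      exact deriv.fun_neg
    rw [e, dy_ng, neg_neg]
  rw [lap, lap, h1, h2, h3, h4]

theorem dx_sc (f : P → ℝ) (c : ℝ) (x : P) : dx (fun y => f (c • y)) x = c * dx f (c • x) := by
  have := deriv_comp_mul_left c (fun s => f (s, c * x.2)) x.1
  simpa [dx, Prod.smul_def] using this

theorem dy_sc (f : P → ℝ) (c : ℝ) (x : P) : dy (fun y => f (c • y)) x = c * dy f (c • x) := by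
  have := deriv_comp_mul_left c (fun s => f (c * x.1, s)) x.2
  simpa [dy, Prod.smul_def] using this

theorem lap_sc (hf : Sm f) (c : ℝ) (x : P) :
    lap (fun y => f (c • y)) x = c ^ 2 * lap f (c • x) := by
  have h1 : dx (fun y => f (c • y)) = fun y => c * dx f (c • y) := funext (dx_sc f c)
  have h2 : dy (fun y => f (c • y)) = fun y => c * dy f (c • y) := funext (dy_sc f c)
  have h3 : Sm (fun y => dx f (c • y)) := (sm_dx hf).comp (contDiff_const_smul c)
  have h4 : Sm (fun y => dy f (c • y)) := (sm_dy hf).comp (contDiff_const_smul c)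
  rw [lap, lap, h1, h2, dx_cmul h3, dy_cmul h4, dx_sc, dy_sc]
  ring

/-! Locality and periodicity. -/

theorem dx_congr {x : P} (h : f =ᶠ[𝓝 x] g) : dx f x = dx g x := by
  have h1 : Tendsto (fun s : ℝ => (s, x.2)) (𝓝 x.1) (𝓝 x) := by
    have : Continuous (fun s : ℝ => ((s, x.2) : P)) := by fun_prop
    exact this.tendsto' x.1 x rfl
  have h2 := h1.eventually h
  exact Filter.EventuallyEq.deriv_eq h2

theorem dy_congr {x : P} (h : f =ᶠ[𝓝 x] g) : dy f x = dy g x := by
  have h1 : Tendsto (fun s : ℝ => (x.1, s)) (𝓝 x.2) (𝓝 x) := by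
    have : Continuous (fun s : ℝ => ((x.1, s) : P)) := by fun_prop
    exact this.tendsto' x.2 x rfl
  have h2 := h1.eventually h
  exact Filter.EventuallyEq.deriv_eq h2

theorem lap_congr {x : P} (h : f =ᶠ[𝓝 x] g) : lap f x = lap g x := by
  have h1 : dx f =ᶠ[𝓝 x] dx g := by
    filter_upwards [eventually_eventually_nhds.2 h] with y hy using dx_congr hy
  have h2 : dy f =ᶠ[𝓝 x] dy g := by
    filter_upwards [eventually_eventually_nhds.2 h] with y hy using dy_congr hy
  rw [lap, lap, dx_congr h1, dy_congr h2]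

theorem LL_congr (b : P → P) {x : P} (h : f =ᶠ[𝓝 x] g) : LL b f x = LL b g x := by
  rw [LL, LL, lap_congr h, dx_congr h, dy_congr h]

theorem per_dx (h : Per f) : Per (dx f) := by
  intro x y
  constructor
  · have h1 : (fun s => f (s, y)) = fun s => f (s + 1, y) := funext fun s => ((h s y).1).symm
    change deriv (fun s => f (s, y)) (x + 1) = deriv (fun s => f (s, y)) x
    conv_rhs => rw [h1]
    exact (deriv_comp_add_const (fun s => f (s, y)) 1 x).symm
  · have h1 : (fun s => f (s, y + 1)) = fun s => f (s, y) := funext fun s => (h s y).2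
    change deriv (fun s => f (s, y + 1)) x = deriv (fun s => f (s, y)) x
    rw [h1]

theorem per_dy (h : Per f) : Per (dy f) := by
  intro x y
  constructor
  · have h1 : (fun s => f (x + 1, s)) = fun s => f (x, s) := funext fun s => (h x s).1
    change deriv (fun s => f (x + 1, s)) y = deriv (fun s => f (x, s)) y
    rw [h1]
  · have h1 : (fun s => f (x, s)) = fun s => f (x, s + 1) := funext fun s => ((h x s).2).symm
    change deriv (fun s => f (x, s)) (y + 1) = deriv (fun s => f (x, s)) y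
    conv_rhs => rw [h1]
    exact (deriv_comp_add_const (fun s => f (x, s)) 1 y).symm

theorem sp_dx (h : SP f) : SP (dx f) := ⟨sm_dx h.1, per_dx h.2⟩

theorem sp_dy (h : SP f) : SP (dy f) := ⟨sm_dy h.1, per_dy h.2⟩

theorem sp_mul (hf : SP f) (hg : SP g) : SP (fun x => f x * g x) :=
  ⟨hf.1.mul hg.1, fun x y => by
    simp only [(hf.2 x y).1, (hf.2 x y).2, (hg.2 x y).1, (hg.2 x y).2, and_self]⟩

/-- Derivatives vanish outside of the closed support. -/
theorem zero_off {s : Set P} (hs : IsClosed s) (h : ∀ x, f x ≠ 0 → x ∈ s) {x : P} (hx : x ∉ s) :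
    dx f x = 0 ∧ dy f x = 0 ∧ lap f x = 0 := by
  have h1 : f =ᶠ[𝓝 x] fun _ => 0 := by
    filter_upwards [hs.isOpen_compl.mem_nhds hx] with y hy
    by_contra h0
    exact hy (h y h0)
  refine ⟨?_, ?_, ?_⟩
  · rw [dx_congr h1]; simp [dx]
  · rw [dy_congr h1]; simp [dy]
  · rw [lap_congr h1]
    have e1 : dx (fun _ : P => (0 : ℝ)) = fun _ => 0 := by funext y; simp [dx]
    have e2 : dy (fun _ : P => (0 : ℝ)) = fun _ => 0 := by funext y; simp [dy]
    rw [lap, e1, e2]
    simp [dx, dy]

end Pool.Agent.Q61.ND.Calc
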