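import Pool.Agent.Q61.AD.Def

/-!
# Project ND: an autonomous drift in `L²(𝕋²)` and a non-parabolic solution

Full answer (yes) of Q1 and Q2 of `MP_fe2fb1_an`. Near a point of the torus use the coordinates
`x = EE (s, θ) = e^(-s) (cos θ, sin θ)`, `s = log (1/|x|)`. The stream function of the drift is
`H = η(s) sin 2θ`, `η = -(3/2)/s`, so `|b|` is of order `1/(r s)`, in `L²`. The function
`U₀ = r⁻¹ (s^(-3/4) cos θ + (3/16) s^(-7/4) cos 3θ)` is in `L²`, not in `H¹`, and solves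
`-ΔU₀ + b·∇U₀ = O(r⁻³ s^(-11/4))`. A weighted estimate for odd test functions (`S_apr`) and duality
give a correction `W` with `∫ s W² < ∞` such that `U = U₀ - W` solves `-ΔU + div(bU) = 0` near the
point, in the sense of distributions, also across the point. With a cutoff and a correction in
`H¹(𝕋²)` (Lions) one gets `U` on the torus with `-ΔU + div(bU) + U = 0`, and `u = e^t U` is a
distributional solution which is not parabolic.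

The torus, `P = ℝ × ℝ`, `Q`, `Per`, `dx`, `dy`, `lap` are those of `Pool/Agent/Q61/AD/Def.lean`
(`dx`, `dy` = the derivatives in the first and second variable, `lap = dx dx + dy dy`).
In the strip `dx` is `∂_s` and `dy` is `∂_θ`.
-/

set_option autoImplicit false

open MeasureTheory Set Filter Topology Real

noncomputable section

namespace Pool.Agent.Q61.ND

open Pool.Agent.Q61.AD (P Q Per dt dx dy lap Tst D)

/-! ### The strip -/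

/-- The strip `s > S`, `-π < θ < π`. -/
def Sp (S : ℝ) : Set P := Ioi S ×ˢ Ioo (-π) π

/-- Test functions on the strip: smooth, odd under the rotation by `π`, supported in
`a ≤ s ≤ b` with `a > 21`. -/
structure TC (Φ : P → ℝ) : Prop where
  smooth : ContDiff ℝ (⊤ : ℕ∞) Φ
  anti : ∀ s θ : ℝ, Φ (s, θ + π) = -Φ (s, θ)
  supp : ∃ a b : ℝ, 21 < a ∧ ∀ s θ : ℝ, Φ (s, θ) ≠ 0 → s ∈ Icc a b

/-- The operator `r² (Δ + b·∇)` in the strip, for the stream function `η(s) sin 2θ`. -/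
def GG (η : ℝ → ℝ) (Φ : P → ℝ) (p : P) : ℝ :=
  lap Φ p + 2 * η p.1 * cos (2 * p.2) * dx Φ p - deriv η p.1 * sin (2 * p.2) * dy Φ p

/-- `η = -(3/2)/s`. -/
def eta0 (s : ℝ) : ℝ := -(3 / 2) / s

/-- `GG eta0`, written out. -/
def G0 (Φ : P → ℝ) (p : P) : ℝ :=
  lap Φ p - 3 / p.1 * cos (2 * p.2) * dx Φ p - 3 / 2 / p.1 ^ 2 * sin (2 * p.2) * dy Φ p

/-- **JOB WIR** (0.9 h), `theorem wir : S_wir`. Wirtinger's inequality for antiperiodic functions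
without first harmonics. Parseval: `Ψ` has the period `2π`; its Fourier coefficients `c_n` vanish for
even `n` (antiperiodicity) and for `n = ±1` (hypotheses), those of `Ψ'` are `i n c_n`; so
`∫ Ψ'² = 2π ∑ n² |c_n|² ≥ 9 · 2π ∑ |c_n|² = 9 ∫ Ψ²`. In Mathlib: `tsum_sq_fourierCoeffOn` /
`hasSum_sq_fourierCoeffOn` (Parseval on an interval, for the complex-valued function) and
`fourierCoeffOn_of_hasDerivAt`. -/
def S_wir : Prop :=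
  ∀ Ψ : ℝ → ℝ, ContDiff ℝ 1 Ψ → (∀ t, Ψ (t + π) = -Ψ t) →
    (∫ t in (-π)..π, Ψ t * cos t = 0) → (∫ t in (-π)..π, Ψ t * sin t = 0) →
    9 * ∫ t in (-π)..π, Ψ t ^ 2 ≤ ∫ t in (-π)..π, deriv Ψ t ^ 2

/-- **JOB CIR** (0.8 h), `theorem cir (h : S_wir) : S_cir`.
`a = (1/π) ∫ Ψ cos`, `b = (1/π) ∫ Ψ sin`, `Ψ₁ = a cos + b sin`, `R = Ψ - Ψ₁` satisfies the hypotheses
of `S_wir`. With `x² = ∫ Ψ₁² = π (a² + b²)`, `y² = ∫ R²`: `∫ Ψ² = x² + y²`,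
`∫ Ψ'² = x² + ∫ R'²` (`∫ Ψ₁' R' = -∫ Ψ₁'' R = ∫ Ψ₁ R = 0`, periodic), so `∫ Ψ'² - ∫ Ψ² ≥ 8 y²`.
`∫ cos 2t Ψ₁² = (π/2)(a² - b²) ≤ x²/2`, `2 |∫ cos 2t Ψ₁ R| ≤ 2 ∫ |Ψ₁ R|`, and pointwise
`6 ε |Ψ₁ R| ≤ 4 R² + (9/4) ε² Ψ₁²`; the rest is `(4 - 3 ε) y² ≥ 0`. -/
def S_cir : Prop :=
  ∀ Ψ : ℝ → ℝ, ContDiff ℝ 1 Ψ → (∀ t, Ψ (t + π) = -Ψ t) → ∀ ε ∈ Icc (0 : ℝ) 1,
    -(3 / 2 * ε + 9 / 4 * ε ^ 2) * ∫ t in (-π)..π, Ψ t ^ 2 ≤
      ∫ t in (-π)..π, (deriv Ψ t ^ 2 - Ψ t ^ 2 - 3 * ε * cos (2 * t) * Ψ t ^ 2)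

/-- **JOB SLI** (0.6 h), `theorem sli : S_sli`. One variable, `f` has compact support in `(21, ∞)`,
`w = e^(2s)/s²`. `-∫ w f'' f = ∫ w f'² + ∫ w' f f' = ∫ w f'² - (1/2) ∫ w'' f²`, and
`f'² ≥ -2 f f' - f²` gives `∫ w f'² ≥ ∫ w' f² - ∫ w f²`; `-w''/2 + w' - w =
e^(2s) (-1/s² + 2/s³ - 3/s⁴)`. Moreover `3 κ ∫ e^(2s)/s³ f' f = -(3/2) κ ∫ (e^(2s)/s³)' f²`.
(Or: the difference of the two integrands is `w (f' + f)²` plus the derivative of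
`-w f' f + (w'/2) f² - w f² + (3/2) κ e^(2s)/s³ f²`, up to signs.) -/
def S_sli : Prop :=
  ∀ (f : ℝ → ℝ) (a b κ : ℝ), ContDiff ℝ 2 f → 21 < a → (∀ s, f s ≠ 0 → s ∈ Icc a b) →
    ∫ s in Ioi (21 : ℝ), exp (2 * s) * ((-1 / s ^ 2 + 2 / s ^ 3 - 3 / s ^ 4) -
        κ * (3 / 2) * (2 / s ^ 3 - 3 / s ^ 4)) * f s ^ 2 ≤
      -∫ s in Ioi (21 : ℝ), exp (2 * s) / s ^ 2 *
        ((deriv (deriv f) s - 3 / s * κ * deriv f s) * f s)

/-- **JOB ENE** (0.9 h), `theorem ene (h : S_sli) : S_ene`. Fubini. For every `θ` use `S_sli` with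
`f = Φ(·, θ)`, `κ = cos 2θ`; for every `s` integrate by parts in `θ` over `(-π, π)` (`Φ` has the
period `2π` in `θ`): `-∫ Φ_θθ Φ = ∫ Φ_θ²`, `∫ sin 2θ Φ_θ Φ = -∫ cos 2θ Φ²`. Sum of the coefficients of
`cos 2θ Φ²`: `-(3/2)(2/s³ - 3/s⁴) - (3/2)/s⁴ = -(3/s²)(1/s)(1 - 1/s)`. All integrands are continuous
on the support, which is compact in `s`. -/
def S_ene : Prop :=
  ∀ Φ : P → ℝ, TC Φ →
    ∫ p in Sp 21, exp (2 * p.1) / p.1 ^ 2 * (dy Φ p ^ 2 - Φ p ^ 2 -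
        3 * (1 / p.1 * (1 - 1 / p.1)) * cos (2 * p.2) * Φ p ^ 2 +
          (2 / p.1 - 3 / p.1 ^ 2) * Φ p ^ 2) ≤
      -∫ p in Sp 21, exp (2 * p.1) / p.1 ^ 2 * (G0 Φ p * Φ p)

/-- **JOB APR** (0.7 h), `theorem apr (h : S_cir) (h1 : S_ene) : S_apr`. For every `s > 21` use
`S_cir` with `Ψ = Φ(s, ·)`, `ε = (1/s)(1 - 1/s)`; as `ε ≤ 1/s` and `s ≥ 21`,
`-(3/2) ε - (9/4) ε² + 2/s - 3/s² ≥ 1/(2s) - (21/4)/s² ≥ 1/(4s)`. So the left hand side of `S_ene` is at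
least `(1/4) ∫ e^(2s)/s³ Φ²`. And pointwise `-(e^(2s)/s²) G Φ ≤ 2 (e^(2s)/s) G² + (1/8)(e^(2s)/s³) Φ²`. -/
def S_apr : Prop :=
  ∀ Φ : P → ℝ, TC Φ →
    ∫ p in Sp 21, exp (2 * p.1) / p.1 ^ 3 * Φ p ^ 2 ≤
      16 * ∫ p in Sp 21, exp (2 * p.1) / p.1 * G0 Φ p ^ 2

/-- The singular part in the strip. -/
def U0 (p : P) : ℝ :=
  exp p.1 * (p.1 ^ (-(3 / 4) : ℝ) * cos p.2 + 3 / 16 * p.1 ^ (-(7 / 4) : ℝ) * cos (3 * p.2))

/-- The adjoint operator applied to `U0`. -/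
def F0 (p : P) : ℝ :=
  lap U0 p + 3 / p.1 * cos (2 * p.2) * dx U0 p + 3 / 2 / p.1 ^ 2 * sin (2 * p.2) * dy U0 p

/-- **JOB IBP** (0.8 h), `theorem ibp : S_ibp`. Integration by parts in `s` (compact support) and in
`θ` (period `2π`) for smooth functions on `s > 0`. The first order terms:
`-∂_s(H_θ U) + ∂_θ(H_s U) = -H_θ U_s + H_s U_θ` with `H_θ = -(3/s) cos 2θ`, `H_s = (3/2)/s² sin 2θ`. -/
def S_ibp : Prop :=
  ∀ Φ : P → ℝ, TC Φ → ∫ p in Sp 21, U0 p * G0 Φ p = ∫ p in Sp 21, F0 p * Φ p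

/-- **JOB BND** (0.8 h), `theorem bnd : S_bnd`. With `A = s^(-3/4)`, `C = (3/16) s^(-7/4)`,
`η = -(3/2)/s`: `-e^(-s) F0` is the sum of
`cos θ (-A'' - 2A' + η(A + A') + η'A/2 + η(C + C') + (3/2) η'C)`,
`cos 3θ (-C'' - 2C' + 8C + η(A + A') - η'A/2)` and `cos 5θ (η(C + C') - (3/2) η'C)`; the terms of order
`s^(-7/4)` cancel: `-2A' + ηA = 0`, `8C + ηA = 0`; the others are at most a constant times `s^(-11/4)`
(all are multiples of `s^(-11/4)`, `s^(-15/4)`). Compute `dx U0 = e^s ((A + A') cos θ + (C + C') cos 3θ)`,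
`dx (dx U0) = e^s ((A + 2A' + A'') cos θ + …)`, `dy`, `dy dy` (the identities of functions hold near
every point with `s > 0`: `Filter.EventuallyEq.deriv_eq`). -/
def S_bnd : Prop :=
  ∃ K : ℝ, ∀ p ∈ Sp 21, |F0 p| ≤ K * (exp p.1 * p.1 ^ (-(11 / 4) : ℝ))

/-- **JOB LBD** (0.5 h), `theorem lbd (h : S_apr) (h1 : S_ibp) (h2 : S_bnd) : S_lbd`.
Cauchy–Schwarz: `(∫ F0 Φ)² ≤ ∫ F0² s³ e^(-2s) · ∫ e^(2s)/s³ Φ²`, `F0² s³ e^(-2s) ≤ K² s^(-5/2)` is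
integrable on the strip (`F0` is continuous there, or at least measurable: work with the bound). -/
def S_lbd : Prop :=
  ∃ C : ℝ, ∀ Φ : P → ℝ, TC Φ →
    (∫ p in Sp 21, U0 p * G0 Φ p) ^ 2 ≤ C * ∫ p in Sp 21, exp (2 * p.1) / p.1 * G0 Φ p ^ 2

/-- **JOB DUA** (0.9 h), `theorem dua (h : S_lbd) : S_dua`. Riesz in `L²(μ)`,
`μ = e^(2s)/s ds dθ` on the strip (`Measure.withDensity`): the functions `G0 Φ`, `Φ ∈ TC`, form a
subspace (`TC` is a vector space, `G0` is linear on it; they are continuous on the strip with support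
compact in `s`, so in `L²(μ)`), and `G0 Φ ↦ ∫ U0 G0 Φ` is well defined and bounded on it by `S_lbd`;
extend it (`exists_extension_norm_eq` or the closure + `InnerProductSpace.toDual`): there is
`ζ ∈ L²(μ)` with `∫ U0 G0 Φ = ∫ ζ G0 Φ dμ`. `Z = ζ e^(2s)/s`. -/
def S_dua : Prop :=
  ∃ Z : P → ℝ, Measurable Z ∧ IntegrableOn (fun p => exp (-2 * p.1) * p.1 * Z p ^ 2) (Sp 21) ∧
    ∀ Φ : P → ℝ, TC Φ → ∫ p in Sp 21, Z p * G0 Φ p = ∫ p in Sp 21, U0 p * G0 Φ p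

/-! ### The disc -/

/-- The coordinates. -/
def EE (p : P) : P := (exp (-p.1) * cos p.2, exp (-p.1) * sin p.2)

/-- `|x|²`. -/
def rs (x : P) : ℝ := x.1 ^ 2 + x.2 ^ 2

/-- `s = log (1/|x|)`. -/
def ls (x : P) : ℝ := -(1 / 2) * log (rs x)

/-- The punctured disc `0 < |x| < e^(-S)`. -/
def Dc (S : ℝ) : Set P := {x | 0 < rs x ∧ rs x < exp (-2 * S)}

/-- The drift with the stream function `η(s) sin 2θ`. -/
def bb (η : ℝ → ℝ) (x : P) : P :=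
  ((-2 * η (ls x) * (x.1 ^ 2 - x.2 ^ 2) * x.1 + deriv η (ls x) * (2 * x.1 * x.2) * x.2) / rs x ^ 2,
    (-2 * η (ls x) * (x.1 ^ 2 - x.2 ^ 2) * x.2 - deriv η (ls x) * (2 * x.1 * x.2) * x.1) / rs x ^ 2)

/-- `Δφ + b·∇φ`. -/
def LL (b : P → P) (φ : P → ℝ) (x : P) : ℝ := lap φ x + (b x).1 * dx φ x + (b x).2 * dy φ x

/-- **JOB CHN** (0.7 h), `theorem chn : S_chn`. Chain rule. With `Φ = φ ∘ EE`:
`Φ_s = -(x φ_x + y φ_y)`, `Φ_θ = -y φ_x + x φ_y`, `Φ_ss + Φ_θθ = r² Δφ`, `rs (EE p) = e^(-2s)`,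
`ls (EE p) = s`, `cos 2θ = (x² - y²)/r²`, `sin 2θ = 2xy/r²`. -/
def S_chn : Prop :=
  ∀ (η : ℝ → ℝ) (φ : P → ℝ), ContDiff ℝ 2 φ → ∀ p : P,
    dx (φ ∘ EE) p = -((EE p).1 * dx φ (EE p) + (EE p).2 * dy φ (EE p)) ∧
    dy (φ ∘ EE) p = -(EE p).2 * dx φ (EE p) + (EE p).1 * dy φ (EE p) ∧
    lap (φ ∘ EE) p = exp (-2 * p.1) * lap φ (EE p) ∧
    GG η (φ ∘ EE) p = exp (-2 * p.1) * LL (bb η) φ (EE p)

/-- **JOB POL** (0.8 h), `theorem pol : S_pol`. Change of variables: `EE` is injective on `Sp S` with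
Jacobian determinant of modulus `e^(-2s)`, and its image is `Dc S` without the negative half axis, a
null set. (`integral_image_eq_integral_abs_det_fderiv_smul`,
`integrableOn_image_iff_integrableOn_abs_det_fderiv_smul`; or `integral_comp_polarCoord_symm` and
`r = e^(-s)`.) -/
def S_pol : Prop :=
  ∀ (S : ℝ) (f : P → ℝ),
    (∫ x in Dc S, f x = ∫ p in Sp S, exp (-2 * p.1) * f (EE p)) ∧
    (IntegrableOn f (Dc S) ↔ IntegrableOn (fun p => exp (-2 * p.1) * f (EE p)) (Sp S))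

/-- The singular part on the disc. -/
def U0c (x : P) : ℝ :=
  1 / √(rs x) * (ls x ^ (-(3 / 4) : ℝ) * (x.1 / √(rs x)) +
    3 / 16 * ls x ^ (-(7 / 4) : ℝ) * (4 * (x.1 / √(rs x)) ^ 3 - 3 * (x.1 / √(rs x))))

/-- The corrections `W` (a predicate): odd, `∫ s W² < ∞`, and `U = U0c - W` is a solution away
from the origin. -/
structure Loc (W : P → ℝ) : Prop where
  meas : Measurable W
  odd : ∀ x, W (-x) = -W x
  int : IntegrableOn (fun x => ls x * W x ^ 2) (Dc 21)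
  eq : ∀ φ : P → ℝ, ContDiff ℝ (⊤ : ℕ∞) φ →
    (∃ a b : ℝ, 0 < a ∧ b < exp (-42) ∧ ∀ x, φ x ≠ 0 → rs x ∈ Icc a b) →
    ∫ x in Dc 21, (U0c x - W x) * LL (bb eta0) φ x = 0

/-- **JOB LOC** (1.0 h), `theorem loc (h : S_dua) (h1 : S_chn) (h2 : S_pol) : S_loc`.
`W x = (Z(ls x, arg x) - Z(ls x, arg (-x)))/2`, `arg x = Complex.arg (x.1 + i x.2)`; the integrability
by `S_pol` (`EE (ls x, arg x) = x`; the map `x ↦ -x` preserves the measure and `Dc 21`). For `φ` odd: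
`Φ = φ ∘ EE ∈ TC` (`EE (s, θ + π) = -EE (s, θ)`, `rs (EE p) = e^(-2s)`), `G0 Φ = GG eta0 Φ` for `s > 0`,
`U0c (EE p) = U0 p` for `s > 0` (`cos 3θ = 4 cos³ θ - 3 cos θ`), so by `S_pol`, `S_chn`, `S_dua`
`∫ (U0c - Z(ls, arg)) LL φ = ∫_strip (U0 - Z) G0 Φ = 0`; as `LL φ` is odd, the same with `W`. For `φ` even the
integrand is odd (`bb eta0` is odd), so the integral vanishes; a general `φ` is the sum of
`(φ(x) - φ(-x))/2` and `(φ(x) + φ(-x))/2` (linearity needs integrability: `U0c`, `W` are in `L²` near the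
support, `LL φ` is bounded there). -/
def S_loc : Prop := ∃ W : P → ℝ, Loc W

/-- **JOB SQI** (0.5 h), `theorem sqi (h : S_pol) : S_sqi`. In the strip: `e^(-2s) U0² ≤ 2 s^(-3/2)`. And
`W² ≤ ls W²` on `Dc 21` as `ls ≥ 21` there. -/
def S_sqi : Prop :=
  IntegrableOn (fun x => U0c x ^ 2) (Dc 21) ∧
    ∀ W : P → ℝ, Measurable W → IntegrableOn (fun x => ls x * W x ^ 2) (Dc 21) →
      IntegrableOn (fun x => (U0c x - W x) ^ 2) (Dc 21)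

/-- **JOB EXT** (1.0 h), `theorem ext (h : S_pol) (h1 : S_sqi) : S_ext`. For even `φ` the integrand is
odd (`U0c`, `W`, `bb eta0` are odd): zero. For odd `φ`: `|φ x| ≤ C |x|`. Let
`k_n x = Real.smoothTransition (e^(2n) rs x - 1)`: it is `0` for `rs ≤ e^(-2n)` and `1` for
`rs ≥ 2 e^(-2n)`, with first derivatives `O(e^n)` and second `O(e^(2n))` supported in the annulus
`A_n = {e^(-2n) ≤ rs ≤ 2 e^(-2n)}`. `Loc.eq` for `k_n φ`, and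
`LL (k_n φ) = k_n LL φ + 2 ∇k_n·∇φ + φ Δk_n + φ b·∇k_n`. On `A_n`: `|b| ≤ C e^n`, so the three last terms
are at most `C e^n`, and `∫_{A_n} |U| e^n ≤ (∫_{A_n} U²)^(1/2) (e^(2n) vol A_n)^(1/2) → 0` as `U ∈ L²`.
`∫ U k_n LL φ → ∫ U LL φ` by dominated convergence (`|b| ≤ C/|x|` is not in `L²` but `|b| ≤ C/(|x| ls x)` is;
in the strip `e^(-2s) |U b| ≤ |U| e^(-s)/s · …`: use `|U b| ≤ U² + |b|²`, `∫ |b|² < ∞` by `S_pol`). -/
def S_ext : Prop :=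
  ∀ W : P → ℝ, Loc W → ∀ φ : P → ℝ, ContDiff ℝ (⊤ : ℕ∞) φ →
    (∃ b : ℝ, b < exp (-42) ∧ ∀ x, φ x ≠ 0 → rs x ≤ b) →
    ∫ x in Dc 21, (U0c x - W x) * LL (bb eta0) φ x = 0

/-! ### The torus -/

/-- `-(3/2)/s` for `s ≥ 2`, zero for `s ≤ 1`. -/
def etaT (s : ℝ) : ℝ := -(3 / 2) * smoothTransition (s - 1) / s

/-- Representative of a point of the torus in the square of side `1` centred at the centre
`(1/2, 1/2)` of `Q`. -/
def fr (x : P) : P := (Int.fract x.1 - 1 / 2, Int.fract x.2 - 1 / 2)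

/-- The drift on the torus. -/
def bP (x : P) : P := bb etaT (fr x)

/-- Cutoff: `1` for `|x| ≤ e^(-23)`, `0` for `|x| ≥ e^(-22)`. -/
def chi (x : P) : ℝ :=
  1 - smoothTransition ((rs x - exp (-46)) / (exp (-44) - exp (-46)))

/-- The singular function on the torus. -/
def UP (W : P → ℝ) (x : P) : ℝ := chi (fr x) * (U0c (fr x) - W (fr x))

/-- Smooth functions on the torus. -/
def SP (ψ : P → ℝ) : Prop := ContDiff ℝ (⊤ : ℕ∞) ψ ∧ Per ψ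

/-- **JOB TRA** (0.5 h), `theorem tra : S_tra`. `Q` is the translate by `(1/2, 1/2)` of the square
`[-1/2, 1/2)²`, which contains `Dc 1` (`e^(-1) < 1/2`), `fr (x + (1/2, 1/2)) = x` there, and `{0}` is a
null set. -/
def S_tra : Prop :=
  ∀ f g : P → ℝ, (∀ x, rs x = 0 ∨ exp (-2) ≤ rs x → f x = 0) →
    (∫ x in Q, f (fr x) * g x = ∫ x in Dc 1, f x * g (x.1 + 1 / 2, x.2 + 1 / 2)) ∧
    (IntegrableOn (fun x => f (fr x) * g x) Q ↔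
      IntegrableOn (fun x => f x * g (x.1 + 1 / 2, x.2 + 1 / 2)) (Dc 1))

/-- **JOB BPA** (0.8 h), `theorem bpa (h : S_pol) (h1 : S_tra) : S_bpa`. `etaT` is smooth, zero for
`s ≤ 1`, `|etaT s| ≤ C/s`, `|etaT' s| ≤ C/s` for `s ≥ 1`; so `|bb etaT x| ≤ C/(|x| ls x)` on `Dc 1`, zero
outside, and in the strip `e^(-2s) |b|² ≤ C/s²`. (Components: the norm on `P` is the maximum.) -/
def S_bpa : Prop :=
  Measurable bP ∧ Per bP ∧ IntegrableOn (fun x => ‖bP x‖ ^ 2) Q ∧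
    (∀ x, exp (-2) ≤ rs x → bb etaT x = 0) ∧ IntegrableOn (fun x => ‖bb etaT x‖ ^ 2) (Dc 1)

/-- **JOB BPB** (1.0 h), `theorem bpb (h : S_chn) (h1 : S_pol) (h2 : S_tra) (h3 : S_bpa) : S_bpb`.
By `S_tra`, `S_pol`, `S_chn` with `φ x = ψ (x + (1/2,1/2))`, `Ψ = φ ∘ EE`, the integral is
`∫_{Sp 1} (2 η cos 2θ Ψ_s - η' sin 2θ Ψ_θ)`, `η = etaT`. For every `s` integrate the second term by parts in
`θ`: it becomes `2 η' cos 2θ Ψ`. The sum is `∂_s (2 η cos 2θ Ψ)`, and `∫_1^∞ ds` of this vanishes as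
`η(1) = 0`, `η → 0` at infinity and `Ψ` is bounded. (The integrand is integrable on the strip as
`b·∇φ` is integrable on `Dc 1`; each of the two terms too: `Ψ_s`, `Ψ_θ` are `O(e^(-s))`.) -/
def S_bpb : Prop :=
  ∀ ψ : P → ℝ, SP ψ → ∫ x in Q, ((bP x).1 * dx ψ x + (bP x).2 * dy ψ x) = 0

/-- **JOB LIO** (0.6 h), `theorem lio : S_lio`. Lions' projection theorem. Let `V` be the closure of
`M`, `Pr` the orthogonal projection on it, `K' φ = Pr (K φ)`. `‖φ‖² ≤ ⟪φ, K φ⟫ = ⟪φ, K' φ⟫ ≤ ‖φ‖ ‖K' φ‖`, so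
`‖φ‖ ≤ ‖K' φ‖`, `K'` is injective and `K' φ ↦ f φ` is a bounded functional on the range of `K'`; extend it
to `V` (`Real.exists_extension_norm_eq`) and represent it by `w ∈ V` (`InnerProductSpace.toDual`);
`⟪w, K φ⟫ = ⟪w, K' φ⟫` as `w ∈ V`. -/
def S_lio : Prop :=
  ∀ (H : Type) [NormedAddCommGroup H] [InnerProductSpace ℝ H] [CompleteSpace H]
    (M : Submodule ℝ H) (K : M →ₗ[ℝ] H) (f : M →ₗ[ℝ] ℝ) (C : ℝ),
    (∀ φ : M, ‖(φ : H)‖ ^ 2 ≤ inner ℝ (φ : H) (K φ)) → (∀ φ : M, |f φ| ≤ C * ‖(φ : H)‖) →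
    ∃ w ∈ M.topologicalClosure, ∀ φ : M, inner ℝ w (K φ) = f φ

/-- **JOB LAX** (1.0 h), `theorem lax (h : S_lio) : S_lax`. `H = L²(Q; ℝ³)`
(`Lp (EuclideanSpace ℝ (Fin 3)) 2 (volume.restrict Q)`), `M` = the triples `(ψ, ψ_x, ψ_y)`, `ψ ∈ SP`
(`ψ` is determined by the class of the triple: `ψ` is continuous and periodic),
`K ψ = (ψ - b·∇ψ, ψ_x, ψ_y)`; `⟪ψ, K ψ⟫ = ‖ψ‖²` because `∫ ψ b·∇ψ = (1/2) ∫ b·∇(ψ²) = 0`. The element
`w = (w0, w1, w2)` of the closure: `∫ w0 ψ_x = -∫ w1 ψ` holds for elements of `M` (integration by parts on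
the torus) and passes to the limit; the same for `y`. So `∫ w1 ψ_x = -∫ w0 ψ_xx` etc. Take measurable
representatives and extend them periodically (`x ↦ w (fract x.1, fract x.2)`). -/
def S_lax : Prop :=
  ∀ b : P → P, Measurable b → Per b → IntegrableOn (fun x => ‖b x‖ ^ 2) Q →
    (∀ ψ : P → ℝ, SP ψ → ∫ x in Q, ((b x).1 * dx ψ x + (b x).2 * dy ψ x) = 0) →
    ∀ f : (P → ℝ) → ℝ, (∀ ψ₁ ψ₂, SP ψ₁ → SP ψ₂ → f (ψ₁ + ψ₂) = f ψ₁ + f ψ₂) →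
      (∀ (c : ℝ) (ψ : P → ℝ), SP ψ → f (c • ψ) = c * f ψ) →
      (∃ C : ℝ, ∀ ψ, SP ψ → f ψ ^ 2 ≤ C * ∫ x in Q, (ψ x ^ 2 + dx ψ x ^ 2 + dy ψ x ^ 2)) →
    ∃ w w₁ w₂ : P → ℝ, Measurable w ∧ Measurable w₁ ∧ Measurable w₂ ∧ Per w ∧
      IntegrableOn (fun x => w x ^ 2) Q ∧ IntegrableOn (fun x => w₁ x ^ 2 + w₂ x ^ 2) Q ∧
      (∀ ψ, SP ψ → ∫ x in Q, w x * dx ψ x = -∫ x in Q, w₁ x * ψ x) ∧
      (∀ ψ, SP ψ → ∫ x in Q, w x * dy ψ x = -∫ x in Q, w₂ x * ψ x) ∧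
      ∀ ψ, SP ψ → ∫ x in Q, w x * (ψ x - LL b ψ x) = f ψ

/-- **JOB UPM** (0.5 h), `theorem upm (h : S_tra) (h1 : S_sqi) : S_upm`. `chi` vanishes outside of
`rs < e^(-44)`, so `S_tra` applies with `f x = chi x * (U0c x - W x)` set to zero at the origin (a null
set), or with its square. -/
def S_upm : Prop :=
  ∀ W : P → ℝ, Loc W → Measurable (UP W) ∧ Per (UP W) ∧ IntegrableOn (fun x => UP W x ^ 2) Q

/-- **JOB FUN** (1.0 h), `theorem fun1 (h : S_ext) (h1 : S_tra) (h2 : S_sqi) (h3 : S_upm) (h4 : S_bpa) :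
S_fun`. With `φ x = ψ (x + (1/2, 1/2))` and `U = U0c - W`: the integral is
`∫_{Dc 21} chi U (φ - LL (bb eta0) φ)` (`bb etaT = bb eta0` on `Dc 2`, where the support of `chi` lies), and
`LL (chi φ) = chi LL φ + 2 ∇chi·∇φ + φ Δchi + φ b·∇chi`, `∫ U LL (chi φ) = 0` by `S_ext`. So it equals
`∫ U (chi φ + 2 ∇chi·∇φ + φ Δchi + φ b·∇chi)`; the derivatives of `chi` are bounded and supported in
`e^(-46) ≤ rs ≤ e^(-44)`, where `b` is bounded; Cauchy–Schwarz with `U ∈ L²(Dc 21)`. -/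
def S_fun : Prop :=
  ∀ W : P → ℝ, Loc W → ∃ C : ℝ, ∀ ψ : P → ℝ, SP ψ →
    (∫ x in Q, UP W x * (ψ x - LL bP ψ x)) ^ 2 ≤
      C * ∫ x in Q, (ψ x ^ 2 + dx ψ x ^ 2 + dy ψ x ^ 2)

/-- The final function on the torus: a solution of `-ΔU + div(bU) + U = 0` which differs from `UP W`
by a function of `H¹`. -/
structure Tor (W w w₁ w₂ : P → ℝ) : Prop where
  m : Measurable w
  m1 : Measurable w₁
  m2 : Measurable w₂
  per : Per w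
  i : IntegrableOn (fun x => w x ^ 2) Q
  ig : IntegrableOn (fun x => w₁ x ^ 2 + w₂ x ^ 2) Q
  gx : ∀ ψ, SP ψ → ∫ x in Q, w x * dx ψ x = -∫ x in Q, w₁ x * ψ x
  gy : ∀ ψ, SP ψ → ∫ x in Q, w x * dy ψ x = -∫ x in Q, w₂ x * ψ x
  eq : ∀ ψ, SP ψ → ∫ x in Q, (UP W x - w x) * (ψ x - LL bP ψ x) = 0

/-- **JOB TOR** (0.5 h), `theorem tor (h : S_bpa) (h1 : S_bpb) (h2 : S_lax) (h3 : S_upm) (h4 : S_fun) :
S_tor`. `S_lax` with `b = bP` and `f ψ = ∫_Q UP W (ψ - LL bP ψ)` (linear: the integrands are integrable as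
`UP W`, `bP` are square integrable and `ψ` and its derivatives are bounded). -/
def S_tor : Prop := ∀ W : P → ℝ, Loc W → ∃ w w₁ w₂ : P → ℝ, Tor W w w₁ w₂

/-! ### The function is not in `H¹` -/

/-- **JOB NHA** (1.0 h), `theorem nha (h : S_chn) (h1 : S_pol) : S_nha`. Let `σ ≥ 0` be smooth with
support in `[1/4, 3/4]`, `∫ σ > 0`, and `ρ n x = σ(ls x - n) (x.1² - x.2²)/rs x` (zero near `0`: smooth), so
`ρ n ∘ EE = σ(s - n) cos 2θ =: Φ`. By `S_chn`, `dx (ρ n) ∘ EE = -e^s (cos θ Φ_s + sin θ Φ_θ)`, so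
`∫ U0c dx (ρ n) = -∫ (s^(-3/4) cos θ + (3/16) s^(-7/4) cos 3θ)(cos θ cos 2θ σ' - 2 sin θ sin 2θ σ) ds dθ
= ∫ (π s^(-3/4) - (3π/16) s^(-7/4)) σ ds - (π/2) ∫ (s^(-3/4) + (3/16) s^(-7/4)) σ' ds`, and by parts the
second term is `-(π/2) ∫ ((3/4) s^(-7/4) + (21/64) s^(-11/4)) σ`. As `s ≥ 21` the sum is at least
`(π/2) ∫ s^(-3/4) σ ≥ c n^(-3/4)`. Integrals in `θ`: `∫ cos² θ cos 2θ = ∫ cos θ sin θ sin 2θ =
∫ cos 3θ cos θ cos 2θ = π/2`, `∫ cos 3θ sin θ sin 2θ = -π/2`. The two upper bounds: `|ρ n| ≤ C`,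
`|dx (ρ n)| ≤ C e^s`. -/
def S_nha : Prop :=
  ∃ (ρ : ℕ → P → ℝ) (c C : ℝ), 0 < c ∧ ∀ n : ℕ, 23 ≤ n →
    ContDiff ℝ (⊤ : ℕ∞) (ρ n) ∧
    (∀ x, ρ n x ≠ 0 → rs x ∈ Icc (exp (-2 * (n + 1))) (exp (-2 * n))) ∧
    c * (n : ℝ) ^ (-(3 / 4) : ℝ) ≤ ∫ x in Dc 21, U0c x * dx (ρ n) x ∧
    ∫ x in Dc 21, ρ n x ^ 2 ≤ C * exp (-2 * n) ∧ ∫ x in Dc 21, dx (ρ n) x ^ 2 ≤ C

/-- **JOB NHB** (1.0 h), `theorem nhb (h : S_nha) (h1 : S_tra) (h2 : S_sqi) : S_nhb`. Let `ψ n` be the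
periodic function `ρ n ∘ fr` (smooth: `ρ n` has compact support in the open square). On the support
(`n ≥ 23`) `chi = 1`; so `c n^(-3/4) ≤ ∫ U0c dx ρ = ∫_Q UP W dx ψ + ∫ W dx ρ = -∫_Q G₁ ψ + ∫ W dx ρ ≤
‖G₁‖₂ (C e^(-2n))^(1/2) + (∫_{A_n} W²)^(1/2) C^(1/2)`, `A_n = {e^(-2(n+1)) ≤ rs ≤ e^(-2n)}`. So for large `n`
`∫_{A_n} ls W² ≥ n ∫_{A_n} W² ≥ c' n^(-1/2)`; the sum over `n` diverges, but it is at most
`∫_{Dc 21} ls W² < ∞` (the `A_n` meet in null sets; or use half open annuli and slightly smaller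
supports). -/
def S_nhb : Prop :=
  ∀ W : P → ℝ, Loc W → ∀ G₁ G₂ : P → ℝ, Measurable G₁ → Measurable G₂ →
    IntegrableOn (fun x => G₁ x ^ 2 + G₂ x ^ 2) Q →
    ¬ ∀ ψ, SP ψ → ∫ x in Q, UP W x * dx ψ x = -∫ x in Q, G₁ x * ψ x

/-! ### Time -/

/-- **JOB TIM** (0.9 h), `theorem tim : S_tim`. `h t = e^t ∫_Q U Φ(t)` has the derivative
`e^t ∫_Q U Φ(t) + e^t ∫_Q U ∂_t Φ(t) = ∫_Q e^t U (∂_t Φ + LL b Φ(t))` by the equation for `ψ = Φ t`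
(differentiation under the integral: `Φ` smooth, periodic in `x`, so bounded with its derivatives on
`[0, T] × ℝ²`); integrate over `[0, T]`: `h T - h 0 = -∫_Q U Φ(0)`. -/
def S_tim : Prop :=
  ∀ (b : P → P) (U : P → ℝ), Measurable b → Per b → IntegrableOn (fun x => ‖b x‖ ^ 2) Q →
    Measurable U → Per U → IntegrableOn (fun x => U x ^ 2) Q →
    (∀ ψ, SP ψ → ∫ x in Q, U x * (ψ x - LL b ψ x) = 0) →
    ∀ T : ℝ, 0 < T → ∀ Φ : ℝ → P → ℝ, Tst Φ → (∃ T' < T, ∀ t, T' ≤ t → ∀ x, Φ t x = 0) →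
      (∫ t in (0 : ℝ)..T, ∫ x in Q, exp t * U x * D (fun _ => b) Φ t x) +
        ∫ x in Q, U x * Φ 0 x = 0

/-- **JOB INT** (0.4 h), `theorem int1 : S_int`. `|U b| ≤ U² + ‖b‖²` is integrable on `Q`, `e^t` is bounded
on `(0, T)`: `Integrable.mul_prod`/`Integrable.smul_prod`. -/
def S_int : Prop :=
  ∀ (b : P → P) (U : P → ℝ), Measurable b → IntegrableOn (fun x => ‖b x‖ ^ 2) Q →
    Measurable U → IntegrableOn (fun x => U x ^ 2) Q → ∀ T : ℝ,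
      Integrable (fun q : ℝ × P => (exp q.1 * U q.2) • b q.2)
        ((volume.restrict (Ioo 0 T)).prod (volume.restrict Q))

end Pool.Agent.Q61.ND
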